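import Pool.Agent.L7h41.MD.NW

set_option autoImplicit false

/-!
# Graphs whose quotient graph has few automorphisms

`T(G)` is the set of nonempty cliques of `G` ordered by inclusion. A *module* of `G` is a set `M` of
vertices such that every vertex outside of `M` is adjacent to all or to none of the vertices of
`M`; `M` is a *maximal proper module* if it is nonempty, not the set of all vertices, and the set of
all vertices is the only module which properly contains it. The *quotient graph* `Q` of `G` has the
maximal proper modules as vertices, two different ones are adjacent if there is an edge of `G`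
between them.

**Theorem.** Let `G` have `n ≥ 8` vertices.

(1) Let `M` be a maximal proper module with at least two vertices and `v` a vertex of `M`. Let `q`
be the number of the maximal proper modules `N` with a vertex `w` such that `G[N - w]` is isomorphic
to `G[M - v]`. Let `A` be the set of the automorphisms of `Q` which map all maximal proper modules
to isomorphic ones, except perhaps for these `q` modules and the modules isomorphic to `G[M - v]`,
and let `A₀` be the set of the automorphisms of `Q` which map all maximal proper modules to
isomorphic ones. If `|A| < 2 ^ (q - 1) |A₀|`, then `T(G)` and `T` of the complement of `G` are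
reconstructible.

(2) In particular, if `|Aut Q| < 2 ^ (k - 1)`, where `k` is the number of the modules with exactly
two vertices among the maximal proper modules, then `T(G)` and `T` of the complement of `G` are
reconstructible. So this is true if `Q` has no nontrivial automorphism and two of the
maximal proper modules have exactly two vertices.

This is an analogue of the bound of Nash-Williams and Müller for the edge reconstruction conjecture,
with the automorphism group of the quotient graph in place of the symmetric group and modules in
place of edges.

The proof. Let `H` be hypomorphic to `G` and not isomorphic to `G`. For a vertex `v` in a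
maximal proper module with at least two vertices the isomorphism of `G - v` and `H - v` gives an
isomorphism of the quotient graphs of `G` and `H` which preserves the isomorphism types of the
maximal proper modules except for two of them. So the sets of the modules of `G` and `H` which have
a vertex-deleted subgraph isomorphic to `G[M - v]`, labelled by their isomorphism types, have the
same decks under the action of the group `A`, and the argument of Nash-Williams can be applied to
these sets.
-/

namespace Pool.Agent.Results.MP_552896_co.FewAutomorphisms

open Finset

/-- The truncated clique lattices of `G` and `H` have the same deck of maximal filter deleted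
subsets: some bijection `f` of the vertex sets is such that, for every vertex `v`, the nonempty
cliques of `G` avoiding `v` and the nonempty cliques of `H` avoiding `f v`, both ordered by
inclusion, are isomorphic ordered sets. -/
def SameDeck {V W : Type} (G : SimpleGraph V) (H : SimpleGraph W) : Prop :=
  ∃ f : V ≃ W, ∀ v : V,
    Nonempty ({s : Finset V // s.Nonempty ∧ G.IsClique (s : Set V) ∧ v ∉ s} ≃o
      {t : Finset W // t.Nonempty ∧ H.IsClique (t : Set W) ∧ f v ∉ t})

/-- `T(G)` is reconstructible from its deck: every truncated clique lattice `T(H)` of a finite
graph `H` with the same deck is isomorphic to `T(G)`. -/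
def Reconstructible {V : Type} (G : SimpleGraph V) : Prop :=
  ∀ (W : Type) [Fintype W] (H : SimpleGraph W), SameDeck G H →
    Nonempty ({s : Finset V // s.Nonempty ∧ G.IsClique (s : Set V)} ≃o
      {t : Finset W // t.Nonempty ∧ H.IsClique (t : Set W)})

/-- `M` is a module of `G`: every vertex outside of `M` is adjacent to all or to none of the
vertices of `M`. -/
def IsModule {V : Type} (G : SimpleGraph V) (M : Finset V) : Prop :=
  ∀ z, z ∉ M → ∀ x ∈ M, ∀ y ∈ M, (G.Adj z x ↔ G.Adj z y)

/-- `M` is a maximal proper module of `G`. -/
def IsMaxModule {V : Type} [Fintype V] (G : SimpleGraph V) (M : Finset V) : Prop :=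
  M.Nonempty ∧ M ≠ univ ∧ IsModule G M ∧ ∀ N : Finset V, IsModule G N → M ⊂ N → N = univ

/-- The quotient graph: its vertices are the maximal proper modules, two of them are adjacent if
there is an edge between them. -/
def quotientGraph {V : Type} [Fintype V] (G : SimpleGraph V) :
    SimpleGraph {N : Finset V // IsMaxModule G N} where
  Adj A B := A ≠ B ∧ ∃ a ∈ A.1, ∃ b ∈ B.1, G.Adj a b
  symm := ⟨fun _ _ h => ⟨h.1.symm, let ⟨a, ha, b, hb, hab⟩ := h.2; ⟨b, hb, a, ha, hab.symm⟩⟩⟩
  loopless := ⟨fun _ h => h.1 rfl⟩

/-- The graphs induced by `A` and `B` are isomorphic. -/
def Similar {V : Type} (G : SimpleGraph V) (A B : Set V) : Prop :=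
  Nonempty (G.induce A ≃g G.induce B)

/-- The graph induced by `N` has a vertex-deleted subgraph isomorphic to the one induced by `Z`. -/
def Extends {V : Type} (G : SimpleGraph V) (Z : Set V) (N : Finset V) : Prop :=
  ∃ w ∈ N, Similar G {x | x ∈ N ∧ x ≠ w} Z

/-- The automorphisms of the quotient graph which map the maximal proper modules with the property
`P` to isomorphic ones. -/
def Automorphisms {V : Type} [Fintype V] (G : SimpleGraph V) (P : Finset V → Prop) : Type :=
  {ψ : quotientGraph G ≃g quotientGraph G // ∀ N, P N.1 → Similar G (ψ N).1 N.1}

/-- **Theorem.** Few automorphisms of the quotient graph, and the special case of the modules with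
two vertices. -/
theorem result :
    (∀ (V : Type) [Fintype V] (G : SimpleGraph V) (M : Finset V) (v : V),
      8 ≤ Fintype.card V → IsMaxModule G M → v ∈ M → M ≠ {v} →
      2 * Nat.card (Automorphisms G (fun N => ¬ Extends G {x | x ∈ M ∧ x ≠ v} N ∧
          ¬ Similar G N {x | x ∈ M ∧ x ≠ v})) <
        2 ^ Nat.card {N : Finset V // IsMaxModule G N ∧ Extends G {x | x ∈ M ∧ x ≠ v} N} *
          Nat.card (Automorphisms G (fun _ => True)) →
      Reconstructible G ∧ Reconstructible Gᶜ) ∧
    (∀ (V : Type) [Fintype V] (G : SimpleGraph V), 8 ≤ Fintype.card V →
      2 * Nat.card (quotientGraph G ≃g quotientGraph G) <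
        2 ^ Nat.card {N : Finset V // IsMaxModule G N ∧ N.card = 2} →
      Reconstructible G ∧ Reconstructible Gᶜ) :=
  ⟨fun _ _ G M v hn hM hv hMv hlt => Pool.Agent.L7h41.MD.thm_nw G hn M v hM hv hMv hlt,
    fun _ _ G hn hlt => Pool.Agent.L7h41.MD.thm_pairs G hn hlt⟩

end Pool.Agent.Results.MP_552896_co.FewAutomorphisms
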