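import Pool.Agent.L7h41.MD.Cor

set_option autoImplicit false

/-!
# Graphs with more modules of one kind than of a vertex-deleted kind

`T(G)` is the set of nonempty cliques of `G` ordered by inclusion. A *module* of `G` is a set `M` of
vertices such that every vertex outside of `M` is adjacent to all or to none of the vertices of
`M`; `M` is a *maximal proper module* if it is nonempty, not the set of all vertices, and the set of
all vertices is the only module which properly contains it.

**Theorem.** Let `G` have at least eight vertices, let `M` be a maximal proper module of `G` with at
least two vertices and `v` a vertex of `M`. If fewer maximal proper modules of `G` induce a graph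
isomorphic to `G[M - v]` than induce a graph isomorphic to `G[M]`, then `T(G)` and `T` of the
complement of `G` are reconstructible.

So in a graph with a nonreconstructible `T(G)` and connected complement, with modules of more than
one vertex besides the set of all vertices, the number of maximal proper modules inducing `X` is at
most the number of those inducing `X - v`, for all graphs `X` with at least two vertices; in
particular all induced subgraphs of a maximal proper module are again induced by maximal proper
modules, and every graph with `n ≥ 8` vertices and a module `M` with `2 ≤ |M| < n` and
`|M| (|M| + 1) > 2 n` has a reconstructible `T(G)` (second part of the theorem).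

The proof. Let `H` be hypomorphic to `G` and not isomorphic to `G`. Then `H` has modules of more
than one vertex too (this is known; here a proof for at least eight vertices), and counting shows
that every vertex is in isomorphic maximal proper modules of `G` and `H`. For a vertex `v` in a
maximal proper module with at least two vertices the isomorphism of `G - v` and `H - v` gives an
isomorphism of the quotient graphs of `G` and `H` which preserves the isomorphism types of the
maximal proper modules except for two of them. So the sets of the modules isomorphic to `G[M]` have
the same decks under the action of the group of those automorphisms of the quotient graph which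
preserve the types of all modules not isomorphic to `G[M]` or `G[M - v]`, and Lovász's argument for
graphs with many edges can be applied to these sets.
-/

namespace Pool.Agent.Results.MP_552896_co.MoreCopiesOfModule

open Finset

/-- The truncated clique lattices of `G` and `H` have the same deck of maximal filter deleted
subsets: some bijection `f` of the vertex sets is such that, for every vertex `v`, the nonempty
cliques of `G` avoiding `v` and the nonempty cliques of `H` avoiding `f v`, both ordered by
inclusion, are isomorphic ordered sets. -/
def SameDeck {V W : Type} (G : SimpleGraph V) (H : SimpleGraph W) : Prop :=
  ∃ f : V ≃ W, ∀ v : V,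
    Nonempty ({s : Finset V // s.Nonempty ∧ G.IsClique (s : Set V) ∧ v ∉ s} ≃o
      {t : Finset W // t.Nonempty ∧ H.IsClique (t : Set W) ∧ f v ∉ t})

/-- `T(G)` is reconstructible from its deck: every truncated clique lattice `T(H)` of a finite
graph `H` with the same deck is isomorphic to `T(G)`. -/
def Reconstructible {V : Type} (G : SimpleGraph V) : Prop :=
  ∀ (W : Type) [Fintype W] (H : SimpleGraph W), SameDeck G H →
    Nonempty ({s : Finset V // s.Nonempty ∧ G.IsClique (s : Set V)} ≃o
      {t : Finset W // t.Nonempty ∧ H.IsClique (t : Set W)})

/-- `M` is a module of `G`: every vertex outside of `M` is adjacent to all or to none of the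
vertices of `M`. -/
def IsModule {V : Type} (G : SimpleGraph V) (M : Finset V) : Prop :=
  ∀ z, z ∉ M → ∀ x ∈ M, ∀ y ∈ M, (G.Adj z x ↔ G.Adj z y)

/-- `M` is a maximal proper module of `G`. -/
def IsMaxModule {V : Type} [Fintype V] (G : SimpleGraph V) (M : Finset V) : Prop :=
  M.Nonempty ∧ M ≠ univ ∧ IsModule G M ∧ ∀ N : Finset V, IsModule G N → M ⊂ N → N = univ

/-- The number of the maximal proper modules of `G` which induce a graph isomorphic to the one
induced by `A`. -/
noncomputable def copies {V : Type} [Fintype V] (G : SimpleGraph V) (A : Finset V) : ℕ :=
  Nat.card {N : Finset V // IsMaxModule G N ∧
    Nonempty (G.induce (N : Set V) ≃g G.induce (A : Set V))}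

/-- **Theorem.** Graphs with more maximal proper modules inducing `G[M]` than inducing `G[M - v]`,
and the special case of a large module. -/
theorem result :
    (∀ (V : Type) [Fintype V] [DecidableEq V] (G : SimpleGraph V) (M : Finset V) (v : V),
      8 ≤ Fintype.card V → IsMaxModule G M → v ∈ M → M ≠ {v} →
      copies G (M.erase v) < copies G M →
      Reconstructible G ∧ Reconstructible Gᶜ) ∧
    (∀ (V : Type) [Fintype V] (G : SimpleGraph V) (M : Finset V),
      8 ≤ Fintype.card V → IsModule G M → M ≠ univ → 2 ≤ M.card →
      2 * Fintype.card V < M.card * (M.card + 1) →
      Reconstructible G ∧ Reconstructible Gᶜ) := by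
  constructor
  · intro V _ inst G M v hn hM hv hMv hlt
    obtain rfl : inst = fun a b => Classical.propDecidable (a = b) := Subsingleton.elim _ _
    exact Pool.Agent.L7h41.MD.thm_copies G hn M v hM hv hMv hlt
  · intro V _ G M hn hM h1 h2 hlt
    exact Pool.Agent.L7h41.MD.thm_big G hn M hM h1 h2 hlt

end Pool.Agent.Results.MP_552896_co.MoreCopiesOfModule
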