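import Pool.Agent.L7h41.MD.Move

set_option autoImplicit false

/-!
# Moving one vertex to another module

`T(G)` is the set of nonempty cliques of `G` ordered by inclusion. A *module* of `G` is a set `M` of
vertices such that every vertex outside of `M` is adjacent to all or to none of the vertices of
`M`; `M` is a *maximal proper module* if it is nonempty, not the set of all vertices, and the set of
all vertices is the only module which properly contains it.

**Theorem.** Let `G` have at least eight vertices, let `M` be a maximal proper module of `G` with at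
least two vertices and `v` a vertex of `M`.

(1) Consider the graphs `G'` which arise from `G` by moving the vertex `v` to another maximal proper
module `N`, where `G[N]` is isomorphic to `G[M - v]`: the graph `G' - v` is equal to `G - v`, the set
`N ∪ {v}` is a module of `G'`, and `G'[N ∪ {v}]` is isomorphic to `G[M]`. If all those of these
graphs which are hypomorphic to `G` are isomorphic to `G`, then `T(G)` and `T` of the complement
of `G` are reconstructible.

(2) Let `d(N)` be the number of the vertices outside of `N` with a neighbour in `N`. If there is no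
maximal proper module `N` without `v`, with `G[N]` isomorphic to `G[M - v]`, and with
`d(N) = d(M) + 1` or `d(N) = d(M)`, according as `v` has a neighbour in `N` or not, then `T(G)` and
`T` of the complement of `G` are reconstructible.

The proof. Let `H` be hypomorphic to `G` and not isomorphic to `G`. Then `v` is in a maximal
proper module `R` of `H`, and counting shows that `G[M]` and `H[R]`, and also `G[M - v]` and
`H[R - v]`, are isomorphic. The isomorphism of `G - v` and `H - v` maps the maximal proper modules
of `G - v` to those of `H - v`. If it maps `M - v` to `R - v`, then `G` and `H` are isomorphic. So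
some other maximal proper module `N` is mapped to `R - v`. The second part follows since the degrees
of `v` in `G` and `H` are equal.
-/

namespace Pool.Agent.Results.MP_552896_co.MovingOneVertex

open Finset

/-- The truncated clique lattices of `G` and `H` have the same deck of maximal filter deleted
subsets: some bijection `f` of the vertex sets is such that, for every vertex `v`, the nonempty
cliques of `G` avoiding `v` and the nonempty cliques of `H` avoiding `f v`, both ordered by
inclusion, are isomorphic ordered sets. -/
def SameDeck {V W : Type} (G : SimpleGraph V) (H : SimpleGraph W) : Prop :=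
  ∃ f : V ≃ W, ∀ v : V,
    Nonempty ({s : Finset V // s.Nonempty ∧ G.IsClique (s : Set V) ∧ v ∉ s} ≃o
      {t : Finset W // t.Nonempty ∧ H.IsClique (t : Set W) ∧ f v ∉ t})

/-- `T(G)` is reconstructible from its deck: every truncated clique lattice `T(H)` of a finite
graph `H` with the same deck is isomorphic to `T(G)`. -/
def Reconstructible {V : Type} (G : SimpleGraph V) : Prop :=
  ∀ (W : Type) [Fintype W] (H : SimpleGraph W), SameDeck G H →
    Nonempty ({s : Finset V // s.Nonempty ∧ G.IsClique (s : Set V)} ≃o
      {t : Finset W // t.Nonempty ∧ H.IsClique (t : Set W)})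

/-- `M` is a module of `G`: every vertex outside of `M` is adjacent to all or to none of the
vertices of `M`. -/
def IsModule {V : Type} (G : SimpleGraph V) (M : Finset V) : Prop :=
  ∀ z, z ∉ M → ∀ x ∈ M, ∀ y ∈ M, (G.Adj z x ↔ G.Adj z y)

/-- `M` is a maximal proper module of `G`. -/
def IsMaxModule {V : Type} [Fintype V] (G : SimpleGraph V) (M : Finset V) : Prop :=
  M.Nonempty ∧ M ≠ univ ∧ IsModule G M ∧ ∀ N : Finset V, IsModule G N → M ⊂ N → N = univ

/-- The graphs induced by `A` and `B` are isomorphic. -/
def Similar {V : Type} (G : SimpleGraph V) (A B : Set V) : Prop :=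
  Nonempty (G.induce A ≃g G.induce B)

/-- `G'` arises from `G` by moving the vertex `v` from the module `M` to the maximal proper module
`N`: the graph `G[N]` is isomorphic to `G[M - v]`, the graphs `G - v` and `G' - v` are equal,
`N ∪ {v}` is a module of `G'` and `G'[N ∪ {v}]` is isomorphic to `G[M]`. -/
structure Moved {V : Type} [Fintype V] (G G' : SimpleGraph V) (M N : Finset V) (v : V) : Prop where
  max : IsMaxModule G N
  out : v ∉ N
  similar : Similar G N {x | x ∈ M ∧ x ≠ v}
  rest : ∀ x y, x ≠ v → y ≠ v → (G'.Adj x y ↔ G.Adj x y)
  module : ∀ z, z ∉ N → z ≠ v → ∀ x ∈ N, (G'.Adj z v ↔ G'.Adj z x)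
  copy : Nonempty (G'.induce {x | x ∈ N ∨ x = v} ≃g G.induce (M : Set V))

/-- The vertex-deleted subgraphs of `G` and `G'` are isomorphic in pairs. -/
def Hypomorphic {V : Type} (G G' : SimpleGraph V) : Prop :=
  ∃ f : V ≃ V, ∀ x, Nonempty (G.induce {y | y ≠ x} ≃g G'.induce {y | y ≠ f x})

/-- The number of the vertices outside of `N` with a neighbour in `N`. -/
noncomputable def around {V : Type} (G : SimpleGraph V) (N : Finset V) : ℕ :=
  Nat.card {z // z ∉ N ∧ ∃ x ∈ N, G.Adj z x}

/-- **Theorem.** The structure of the possible counterexamples with modules: one vertex is moved to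
another module; and the criterion with the degrees of the modules. -/
theorem result :
    (∀ (V : Type) [Fintype V] (G : SimpleGraph V) (M : Finset V) (v : V),
      8 ≤ Fintype.card V → IsMaxModule G M → v ∈ M → M ≠ {v} →
      (∀ (G' : SimpleGraph V) (N : Finset V), Moved G G' M N v → Hypomorphic G G' →
        Nonempty (G ≃g G')) →
      Reconstructible G ∧ Reconstructible Gᶜ) ∧
    (∀ (V : Type) [Fintype V] (G : SimpleGraph V) (M : Finset V) (v : V),
      8 ≤ Fintype.card V → IsMaxModule G M → v ∈ M → M ≠ {v} →
      (∀ N : Finset V, IsMaxModule G N → v ∉ N → Similar G N {x | x ∈ M ∧ x ≠ v} →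
        ((∃ x ∈ N, G.Adj v x) → around G N ≠ around G M + 1) ∧
        ((¬ ∃ x ∈ N, G.Adj v x) → around G N ≠ around G M)) →
      Reconstructible G ∧ Reconstructible Gᶜ) := by
  constructor
  · intro V _ G M v hn hM hv hMv h
    exact Pool.Agent.L7h41.MD.thm_move G hn M v hM hv hMv (fun G' N hm hh =>
      h G' N ⟨hm.max, hm.out, hm.similar, hm.rest, hm.module, hm.copy⟩ hh)
  · intro V _ G M v hn hM hv hMv h
    refine Pool.Agent.L7h41.MD.thm_around G hn M v hM hv hMv (fun N h1 h2 h3 h4 => ?_)
    obtain ⟨h5, h6⟩ := h N h1 h2 h3
    change ((around G N : ℕ) : ℤ) = ((around G M : ℕ) : ℤ) + _ at h4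
    by_cases h7 : ∃ x ∈ N, G.Adj v x
    · rw [Pool.Agent.L7h41.MD.ind_true h7] at h4
      exact h5 h7 (by exact_mod_cast h4)
    · rw [Pool.Agent.L7h41.MD.ind_false h7, add_zero] at h4
      exact h6 h7 (by exact_mod_cast h4)

end Pool.Agent.Results.MP_552896_co.MovingOneVertex
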