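import Pool.Agent.L7h41.MD.Quot

set_option autoImplicit false

/-!
# Graphs whose quotient graph has no two degrees which differ by exactly one

`T(G)` is the set of nonempty cliques of `G` ordered by inclusion. A *module* of `G` is a set `M` of
vertices such that every vertex outside of `M` is adjacent to all or to none of the vertices of
`M`; `M` is a *maximal proper module* if it is nonempty, not the set of all vertices, and the set of
all vertices is the only module which properly contains it. The *quotient graph* `Q` of `G` has the
maximal proper modules as vertices, two different ones are adjacent if there is an edge of `G`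
between them. (If `G` and its complement are connected, then the maximal proper modules are
disjoint, between two of them there are all edges or none, and `Q` is prime.)

**Theorem.** Let `G` have at least eight vertices and a module `N` with `2 ≤ |N| < n`.

(1) Let `M` be a maximal proper module such that `Q - M` is prime, and such that every isomorphism
of `Q - M` onto a graph `Q - M'` becomes an automorphism of `Q` by mapping `M` to `M'`. Then `T(G)`
and `T` of the complement of `G` are reconstructible. This is so for all sizes and isomorphism types
of the modules.

(2) If no two degrees of `Q` differ by exactly one (for example, if `Q` is regular), then `T(G)` and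
`T` of the complement of `G` are reconstructible.

The second part follows from the first one, since a prime graph with at least four vertices in
which no two degrees differ by exactly one has a vertex without which it is prime.

The proof of the first part. Let `H` be hypomorphic to `G` and not isomorphic to `G`. The numbers
of induced subgraphs of `G` and `H` of every isomorphism type with fewer than `n` vertices are
equal, and so are the numbers of the maximal proper modules of every type. Counting the induced
subgraphs of `G` and `H` which consist of all but one of the maximal proper modules with a graph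
`Q - M` as quotient graph, a maximal proper module `M'` of `H` isomorphic to `M` is found such that
`G - M` and `H - M'` are isomorphic. By the assumption on `Q` and since the quotient graphs of `G`
and `H` are isomorphic, the isomorphism of `G - M` and `H - M'` extends to one of `G` and `H`.
-/

namespace Pool.Agent.Results.MP_552896_co.QuotientGraphs

open Finset

/-- The truncated clique lattices of `G` and `H` have the same deck of maximal filter deleted
subsets: some bijection `f` of the vertex sets is such that, for every vertex `v`, the nonempty
cliques of `G` avoiding `v` and the nonempty cliques of `H` avoiding `f v`, both ordered by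
inclusion, are isomorphic ordered sets. -/
def SameDeck {V W : Type} (G : SimpleGraph V) (H : SimpleGraph W) : Prop :=
  ∃ f : V ≃ W, ∀ v : V,
    Nonempty ({s : Finset V // s.Nonempty ∧ G.IsClique (s : Set V) ∧ v ∉ s} ≃o
      {t : Finset W // t.Nonempty ∧ H.IsClique (t : Set W) ∧ f v ∉ t})

/-- `T(G)` is reconstructible from its deck: every truncated clique lattice `T(H)` of a finite
graph `H` with the same deck is isomorphic to `T(G)`. -/
def Reconstructible {V : Type} (G : SimpleGraph V) : Prop :=
  ∀ (W : Type) [Fintype W] (H : SimpleGraph W), SameDeck G H →
    Nonempty ({s : Finset V // s.Nonempty ∧ G.IsClique (s : Set V)} ≃o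
      {t : Finset W // t.Nonempty ∧ H.IsClique (t : Set W)})

/-- `M` is a module of `G`: every vertex outside of `M` is adjacent to all or to none of the
vertices of `M`. -/
def IsModule {V : Type} (G : SimpleGraph V) (M : Finset V) : Prop :=
  ∀ z, z ∉ M → ∀ x ∈ M, ∀ y ∈ M, (G.Adj z x ↔ G.Adj z y)

/-- `M` is a maximal proper module of `G`. -/
def IsMaxModule {V : Type} [Fintype V] (G : SimpleGraph V) (M : Finset V) : Prop :=
  M.Nonempty ∧ M ≠ univ ∧ IsModule G M ∧ ∀ N : Finset V, IsModule G N → M ⊂ N → N = univ

/-- The quotient graph: its vertices are the maximal proper modules, two of them are adjacent if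
there is an edge between them. -/
def quotientGraph {V : Type} [Fintype V] (G : SimpleGraph V) :
    SimpleGraph {N : Finset V // IsMaxModule G N} where
  Adj A B := A ≠ B ∧ ∃ a ∈ A.1, ∃ b ∈ B.1, G.Adj a b
  symm := ⟨fun _ _ h => ⟨h.1.symm, let ⟨a, ha, b, hb, hab⟩ := h.2; ⟨b, hb, a, ha, hab.symm⟩⟩⟩
  loopless := ⟨fun _ h => h.1 rfl⟩

/-- The quotient graph without `M` is prime: no set of at least two, but not all, of its vertices is
a module. -/
def PrimeWithout {V : Type} [Fintype V] (G : SimpleGraph V)
    (M : {N : Finset V // IsMaxModule G N}) : Prop :=
  ∀ F : Finset {N : Finset V // IsMaxModule G N}, M ∉ F → 2 ≤ F.card →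
    (∀ C, C ≠ M → C ∉ F → ∀ A ∈ F, ∀ B ∈ F,
      ((quotientGraph G).Adj C A ↔ (quotientGraph G).Adj C B)) →
    ∀ C, C ≠ M → C ∈ F

/-- Every isomorphism of the quotient graph without `M` onto the quotient graph without `ψ M` is the
restriction of an automorphism `ψ` of the quotient graph. -/
def IsomorphismsExtend {V : Type} [Fintype V] (G : SimpleGraph V)
    (M : {N : Finset V // IsMaxModule G N}) : Prop :=
  ∀ ψ : Equiv.Perm {N : Finset V // IsMaxModule G N},
    (∀ A B, A ≠ M → B ≠ M → ((quotientGraph G).Adj (ψ A) (ψ B) ↔ (quotientGraph G).Adj A B)) →
    ∀ A, A ≠ M → ((quotientGraph G).Adj (ψ A) (ψ M) ↔ (quotientGraph G).Adj A M)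

/-- **Theorem.** The criterion for the quotient graph without one module, and the graphs in whose
quotient graph no two degrees differ by exactly one. -/
theorem result :
    (∀ (V : Type) [Fintype V] (G : SimpleGraph V) (M : {N : Finset V // IsMaxModule G N}),
      8 ≤ Fintype.card V → (∃ N, IsModule G N ∧ N ≠ univ ∧ 2 ≤ N.card) →
      PrimeWithout G M → IsomorphismsExtend G M → Reconstructible G ∧ Reconstructible Gᶜ) ∧
    (∀ (V : Type) [Fintype V] (G : SimpleGraph V),
      8 ≤ Fintype.card V → (∃ N, IsModule G N ∧ N ≠ univ ∧ 2 ≤ N.card) →
      (∀ A B : {N : Finset V // IsMaxModule G N},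
        Nat.card {C // (quotientGraph G).Adj A C} ≠
          Nat.card {C // (quotientGraph G).Adj B C} + 1) →
      Reconstructible G ∧ Reconstructible Gᶜ) :=
  ⟨fun _ _ G M hn hN hp hE => Pool.Agent.L7h41.MD.thm_quot G hn hN M hp hE,
    fun _ _ G hn hN hd => Pool.Agent.L7h41.MD.thm_deg G hn hN hd⟩

end Pool.Agent.Results.MP_552896_co.QuotientGraphs
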